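import Pool.Agent.Helper7.O.Orth4

/-!
Irreducible orthogonal modules of dimension six: the image is the full orthogonal Lie algebra.
-/

open Module LieAlgebra LieModule

namespace Pool.Agent.Helper7

open Pool.Agent.Helper8

set_option linter.unusedSectionVars false

/-- adapted basis of an orthogonal module of dimension six -/
structure OZ {L : Type*} [LieRing L] [LieAlgebra ℂ L] (p : Principal L) {W : Type*}
    [AddCommGroup W] [Module ℂ W] [LieRingModule L W] [LieModule ℂ L W]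
    (b : W →ₗ[ℂ] W →ₗ[ℂ] ℂ) (x z : W) : Prop where
  T : OTop p b 4 x
  ζ : b z z ≠ 0
  hz : ⁅p.h, z⁆ = 0
  ez : ⁅p.e, z⁆ = 0
  fz : ⁅p.f, z⁆ = 0
  xz : ∀ i ≤ 4, b (fp p x i) z = 0
  span : ∀ w : W, ∃ (c : ℕ → ℂ) (d : ℂ), w = ∑ i ∈ Finset.range 5, c i • fp p x i + d • z

section

variable {L : Type*} [LieRing L] [LieAlgebra ℂ L] {p : Principal L} {W : Type*} [AddCommGroup W]
  [Module ℂ W] [LieRingModule L W] [LieModule ℂ L W] [FiniteDimensional ℂ W]
  {b : W →ₗ[ℂ] W →ₗ[ℂ] ℂ} (hb : Orth L b) {x z : W}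

include hb in
theorem exists_oz [LieModule.IsIrreducible ℂ L W] (hd : finrank ℂ W = 6) (p : Principal L) :
    ∃ x z : W, OZ p b x z := by
  obtain ⟨m, x, T⟩ := exists_otop p hb
  have hm := T.m_eq_four hb hd
  subst hm
  obtain ⟨z, -, h2, h3, h4, h5, h6, h7⟩ := T.exists_z hb hd
  exact ⟨x, z, T, h2, h3, h4, h5, h6, h7⟩

namespace OZ

variable (O : OZ p b x z)

include O in
lemma hx : ⁅p.h, x⁆ = (4 : ℂ) • x := by
  have := O.T.hx
  simpa using this

include O in
lemma hxi (i : ℕ) : ⁅p.h, fp p x i⁆ = (4 - 2 * i : ℂ) • fp p x i := by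
  rw [h_fp p O.T.hx]; norm_num

include O in
lemma exi (i : ℕ) : ⁅p.e, fp p x (i + 1)⁆ = ((i + 1) * (4 - i) : ℂ) • fp p x i := by
  rw [e_fp p O.T.hx O.T.e0]; norm_num

include O in
lemma b_ne (hb : Orth L b) {i j : ℕ} (h : i + j = 4) : b (fp p x i) (fp p x j) ≠ 0 :=
  O.T.b_ne hb h

include O hb in
/-- a weight vector orthogonal to `z` is a multiple of a basis vector -/
lemma wk {k : ℕ} (hk : k ≤ 4) {v : W} (hv : ⁅p.h, v⁆ = (4 - 2 * k : ℂ) • v) (hvz : b v z = 0) :
    ∃ c : ℂ, v = c • fp p x k := by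
  obtain ⟨c, d, hw⟩ := O.span v
  have h1 : b v z = d * b z z := by
    conv_lhs => rw [hw]
    rw [map_add, LinearMap.add_apply, map_sum, LinearMap.sum_apply, Finset.sum_eq_zero,
      zero_add, map_smul, LinearMap.smul_apply, smul_eq_mul]
    intro i hi
    rw [map_smul, LinearMap.smul_apply, O.xz i (by rw [Finset.mem_range] at hi; omega), smul_zero]
  rw [hvz] at h1
  have hd := (mul_eq_zero.mp h1.symm).resolve_right O.ζ
  rw [hd, zero_smul, add_zero] at hw
  refine ⟨c k, ?_⟩
  rw [Finset.sum_eq_single k] at hw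
  · exact hw
  · intro i hi hik
    rw [Finset.mem_range] at hi
    have h2 : b v (fp p x (4 - i)) = c i * b (fp p x i) (fp p x (4 - i)) := by
      conv_lhs => rw [hw]
      rw [map_sum, LinearMap.sum_apply, Finset.sum_eq_single i]
      · rw [map_smul, LinearMap.smul_apply, smul_eq_mul]
      · intro j hj hji
        rw [Finset.mem_range] at hj
        rw [map_smul, LinearMap.smul_apply, O.T.b_zero hb (by omega), smul_zero]
      · intro h; exact absurd (Finset.mem_range.mpr hi) h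
    have h3 : b v (fp p x (4 - i)) = 0 := by
      refine om_weight p hb hv (O.hxi (4 - i)) (fun h => hik ?_)
      have h4 : ((4 - i : ℕ) : ℂ) = 4 - i := by
        rw [Nat.cast_sub (by omega)]; norm_num
      rw [h4] at h
      have h5 : (i : ℂ) = (k : ℂ) := by linear_combination h / 2
      exact_mod_cast h5
    rw [h3] at h2
    rw [(mul_eq_zero.mp h2.symm).resolve_right (O.b_ne hb (by omega)), zero_smul]
  · intro h; exact absurd (Finset.mem_range.mpr (by omega)) h

include O in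
/-- equality of endomorphisms can be tested on the basis -/
lemma ext_basis {S T : Module.End ℂ W} (h : ∀ i ≤ 4, S (fp p x i) = T (fp p x i))
    (hz : S z = T z) : S = T := by
  ext w
  obtain ⟨c, d, hw⟩ := O.span w
  rw [hw, map_add, map_add, map_sum, map_sum, map_smul, map_smul, hz]
  congr 1
  refine Finset.sum_congr rfl fun i hi => ?_
  rw [Finset.mem_range] at hi
  rw [map_smul, map_smul, h i (by omega)]

include O hb in
lemma exists_ne [LieModule.IsIrreducible ℂ L W] (hd : finrank ℂ W = 6) :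
    ∃ (g : L) (k : ℕ) (c : ℂ), k ≤ 4 ∧ ⁅p.h, g⁆ = (4 - 2 * k : ℂ) • g ∧ c ≠ 0 ∧
      ⁅g, z⁆ = c • fp p x k := by
  by_contra hcon
  push Not at hcon
  have hskew : ∀ g : L, b ⁅g, z⁆ z = 0 := by
    intro g
    have h1 := hb.inv g z z
    rw [hb.symm z] at h1
    have h2 : (2 : ℂ) * b ⁅g, z⁆ z = 0 := by linear_combination h1
    exact (mul_eq_zero.mp h2).resolve_left two_ne_zero
  have hz0 : z ≠ 0 := by
    intro h; apply O.ζ; rw [h, map_zero]
  have key : ∀ (g : L) (μ : ℂ), ⁅p.h, g⁆ = μ • g → ⁅g, z⁆ = 0 := by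
    intro g μ hg
    by_contra hne
    have h1 : ⁅p.h, ⁅g, z⁆⁆ = μ • ⁅g, z⁆ := by
      rw [shift hg (μ := 0) (by rw [O.hz, zero_smul])]
      congr 1; ring
    obtain ⟨k, hk⟩ := O.T.wt μ _ hne h1
    have hk' : μ = 4 - 2 * k := by rw [hk]; norm_num
    rw [hk] at h1
    have h2 := O.T.weight_lt hb hne h1
    rw [← hk, hk'] at h1
    obtain ⟨c, hc⟩ := O.wk hb h2 h1 (hskew g)
    have hc0 : c ≠ 0 := by
      rintro rfl
      rw [zero_smul] at hc
      exact hne hc
    rw [hk'] at hg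
    exact hcon g k c h2 hg hc0 hc
  have hall : ∀ g : L, ⁅g, z⁆ = 0 := by
    intro g
    refine Principal.ind p (P := fun g => ⁅g, z⁆ = 0) ?_ ?_ ?_ ?_ ?_ ?_ g
    · intro g hg
      exact key g 0 (by rw [zero_smul]; exact p.ab _ p.hZ _ hg)
    · intro n g hg; exact key g _ hg
    · intro n g hg; exact key g _ hg
    · exact zero_lie _
    · intro a c ha hc
      rw [add_lie, ha, hc, add_zero]
    · intro t a ha
      rw [smul_lie, ha, smul_zero]
  rcases irr_cases (L := L) (Submodule.span ℂ {z}) (by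
    intro g v hv
    obtain ⟨c, rfl⟩ := Submodule.mem_span_singleton.mp hv
    rw [lie_smul, hall, smul_zero]
    exact Submodule.zero_mem _) with h | h
  · exact hz0 (Submodule.span_singleton_eq_bot.mp h)
  · have h1 := finrank_span_le_card (R := ℂ) ({z} : Set W)
    rw [h, finrank_top, hd] at h1
    simp at h1

include O in
lemma raise (k : ℕ) : k ≤ 4 → ∀ (g : L) (c : ℂ), ⁅p.h, g⁆ = (4 - 2 * k : ℂ) • g → c ≠ 0 →
    ⁅g, z⁆ = c • fp p x k → ∃ (g' : L) (c' : ℂ), ⁅p.h, g'⁆ = (4 : ℂ) • g' ∧ c' ≠ 0 ∧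
      ⁅g', z⁆ = c' • x := by
  induction k with
  | zero =>
    intro _ g c hg hc hgz
    exact ⟨g, c, by rw [hg]; congr 1; norm_num, hc, hgz⟩
  | succ k ih =>
    intro hk g c hg hc hgz
    refine ih (by omega) ⁅p.e, g⁆ (c * ((k + 1) * (4 - k))) ?_ ?_ ?_
    · rw [leibniz_lie, p.he, hg, smul_lie, lie_smul, ← add_smul]
      congr 1; push_cast; ring
    · refine mul_ne_zero hc (mul_ne_zero (Nat.cast_add_one_ne_zero k) ?_)
      intro h
      have h1 : ((k : ℕ) : ℂ) = ((4 : ℕ) : ℂ) := by push_cast; linear_combination -h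
      have h2 : k = 4 := by exact_mod_cast h1
      omega
    · rw [lie_lie, hgz, O.ez, lie_zero, sub_zero, lie_smul, O.exi, smul_smul]

include O hb in
/-- an element of the Lie algebra acting as an elementary skew endomorphism -/
theorem exists_g0 [LieModule.IsIrreducible ℂ L W] (hd : finrank ℂ W = 6) :
    SS b z x ∈ imL L W := by
  obtain ⟨g1, k, c1, hk, hg1, hc1, hg1z⟩ := O.exists_ne hb hd
  obtain ⟨g, c, hg, hc, hgz⟩ := O.raise k hk g1 c1 hg1 hc1 hg1z
  set x1 := fp p x 1 with hx1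
  set x2 := fp p x 2 with hx2
  set x3 := fp p x 3 with hx3
  set x4 := fp p x 4 with hx4
  have hβ : b x x4 ≠ 0 := O.T.pair
  have hζ := O.ζ
  have hxz : b x z = 0 := O.xz 0 (by norm_num)
  have hx4z : b x4 z = 0 := O.xz 4 le_rfl
  have hx2z : b x2 z = 0 := O.xz 2 (by norm_num)
  -- weights
  have hw : ∀ i : ℕ, ⁅p.h, ⁅g, fp p x i⁆⁆ = (4 - 2 * i + 4 : ℂ) • ⁅g, fp p x i⁆ := fun i =>
    shift hg (O.hxi i)
  have g0 : ⁅g, x⁆ = 0 := by
    refine O.T.zero_of hb (hw 0) (fun k _ hk => ?_)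
    have h1 : ((k + 2 : ℕ) : ℂ) = 0 := by push_cast at hk ⊢; linear_combination hk / 2
    have h2 : k + 2 = 0 := by exact_mod_cast h1
    omega
  have g1' : ⁅g, x1⁆ = 0 := by
    refine O.T.zero_of hb (hw 1) (fun k _ hk => ?_)
    have h1 : ((k + 1 : ℕ) : ℂ) = 0 := by push_cast at hk ⊢; linear_combination hk / 2
    have h2 : k + 1 = 0 := by exact_mod_cast h1
    omega
  obtain ⟨q2, hq2⟩ : ∃ q, ⁅g, x2⁆ = q • x := by
    have h1 := hw 2
    refine O.T.uniq _ ?_
    rw [h1]; congr 1; norm_num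
  -- the operator `T1`
  have hskew : ∀ u v, b ⁅g, u⁆ v = - b u ⁅g, v⁆ := hb.inv g
  -- g x4 in terms of x2 and z
  obtain ⟨s, hs⟩ : ∃ s : ℂ, ⁅g, x4⁆ + (c * b x x4 / b z z) • z = s • x2 := by
    refine O.wk hb (k := 2) (by norm_num) ?_ ?_
    · rw [lie_add, lie_smul, O.hz, smul_zero, add_zero]
      have h1 := hw 4
      rw [← hx4] at h1
      have h2 : ⁅g, x4⁆ + (c * b x x4 / b z z) • z - (c * b x x4 / b z z) • z = ⁅g, x4⁆ := by abel
      rw [h1]
      norm_num
    · rw [map_add, LinearMap.add_apply, map_smul, LinearMap.smul_apply, smul_eq_mul, hskew, hgz,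
        map_smul, smul_eq_mul, div_mul_cancel₀ _ hζ, hb.symm x4 x]
      ring
  obtain ⟨r, hr⟩ : ∃ r : ℂ, ⁅g, x3⁆ = r • x1 := by
    refine O.wk hb (k := 1) (by norm_num) ?_ ?_
    · have h1 := hw 3
      rw [← hx3] at h1
      rw [h1]; congr 1; norm_num
    · have e0 : b x x3 = 0 := O.T.b_zero hb (i := 0) (j := 3) (by norm_num)
      rw [hskew, hgz, map_smul, hb.symm x3 x, e0, smul_zero, neg_zero]
  have hr0 : r = 0 := by
    have h1 := hskew x3 x3
    rw [hr, map_smul, map_smul, LinearMap.smul_apply, hb.symm x3 x1, smul_eq_mul] at h1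
    have h2 : b x1 x3 ≠ 0 := O.b_ne hb (by norm_num)
    have h3 : r * b x1 x3 = 0 := by linear_combination h1 / 2
    exact (mul_eq_zero.mp h3).resolve_right h2
  have hq : q2 * b x x4 = - s * b x2 x2 := by
    have h1 := hskew x2 x4
    have h2 : ⁅g, x4⁆ = s • x2 - (c * b x x4 / b z z) • z := by rw [← hs]; abel
    rw [hq2, h2, map_smul, LinearMap.smul_apply, map_sub, map_smul, map_smul, hx2z, smul_zero,
      sub_zero, smul_eq_mul, smul_eq_mul] at h1
    linear_combination h1
  -- the formula for `g`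
  have hform : ∀ w, ⁅g, w⁆ = ((c / b z z) • SS b z x + (-s / b x x4) • SS b x2 x) w := by
    have h1 : LieModule.toEnd ℂ L W g = (c / b z z) • SS b z x + (-s / b x x4) • SS b x2 x := by
      refine O.ext_basis (fun i hi => ?_) ?_
      · have ez : b z (fp p x i) = 0 := by rw [hb.symm]; exact O.xz i hi
        rw [LieModule.toEnd_apply_apply, LinearMap.add_apply, LinearMap.smul_apply,
          LinearMap.smul_apply, SS_apply, SS_apply, ez]
        interval_cases i
        · rw [fp_zero, g0]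
          have e1 : b x x = 0 := O.T.b_zero hb (i := 0) (j := 0) (by norm_num)
          have e2 : b x2 x = 0 := O.T.b_zero hb (i := 2) (j := 0) (by norm_num)
          rw [e1, e2]; simp
        · rw [← hx1, g1']
          have e1 : b x x1 = 0 := O.T.b_zero hb (i := 0) (j := 1) (by norm_num)
          have e2 : b x2 x1 = 0 := O.T.b_zero hb (i := 2) (j := 1) (by norm_num)
          rw [e1, e2]; simp
        · rw [← hx2, hq2]
          have e1 : b x x2 = 0 := O.T.b_zero hb (i := 0) (j := 2) (by norm_num)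
          rw [e1, zero_smul, zero_smul, zero_smul, sub_zero, smul_zero, zero_add, sub_zero,
            smul_smul]
          congr 1
          field_simp
          linear_combination hq
        · rw [← hx3, hr, hr0]
          have e1 : b x x3 = 0 := O.T.b_zero hb (i := 0) (j := 3) (by norm_num)
          have e2 : b x2 x3 = 0 := O.T.b_zero hb (i := 2) (j := 3) (by norm_num)
          rw [e1, e2]; simp
        · rw [← hx4]
          have e2 : b x2 x4 = 0 := O.T.b_zero hb (i := 2) (j := 4) (by norm_num)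
          have h2 : ⁅g, x4⁆ = s • x2 - (c * b x x4 / b z z) • z := by rw [← hs]; abel
          rw [e2, h2, zero_smul, zero_sub, zero_sub, smul_neg, smul_neg, smul_smul,
            smul_smul]
          have e3 : -s / b x x4 * b x x4 = -s := div_mul_cancel₀ _ hβ
          rw [e3]
          module
      · rw [LieModule.toEnd_apply_apply, LinearMap.add_apply, LinearMap.smul_apply,
          LinearMap.smul_apply, SS_apply, SS_apply, hgz, hxz, hx2z, zero_smul, zero_smul,
          zero_smul, sub_zero, sub_zero, smul_zero, add_zero, smul_smul, div_mul_cancel₀ _ hζ]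
    intro w
    have h2 := congrArg (fun T : Module.End ℂ W => T w) h1
    exact h2
  have hgM : (c / b z z) • SS b z x + (-s / b x x4) • SS b x2 x ∈ imL L W := ⟨g, hform⟩
  -- bracket with `e`
  have hfx1 : ⁅p.f, x⁆ = x1 := rfl
  have hfx2 : ⁅p.f, x1⁆ = x2 := rfl
  have hex0 : ⁅p.e, x⁆ = 0 := O.T.e0
  have hex2 : ⁅p.e, x2⁆ = (6 : ℂ) • x1 := by
    have := O.exi 1
    rw [← hx2, ← hx1] at this
    rw [this]; congr 1; norm_num
  have hact : ∀ (y : L) (T : Module.End ℂ W) (a : L), (∀ w, ⁅a, w⁆ = T w) →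
      ∀ w, ⁅⁅y, a⁆, w⁆ = ⁅y, T w⁆ - T ⁅y, w⁆ := by
    intro y T a ha w
    rw [lie_lie, ha, ha]
  have h1 : ∀ w, ⁅⁅p.e, g⁆, w⁆ = (6 * (-s / b x x4)) • SS b x1 x w := by
    intro w
    rw [hact p.e _ g hform w]
    simp only [LinearMap.add_apply, LinearMap.smul_apply, lie_add, lie_smul]
    have e1 := SS_lie hb p.e z x w
    have e2 := SS_lie hb p.e x2 x w
    rw [O.ez, hex0, SS_zero_left, SS_zero_right, LinearMap.zero_apply, add_zero] at e1
    rw [hex2, hex0, SS_zero_right, LinearMap.zero_apply, add_zero, SS_smul_left,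
      LinearMap.smul_apply] at e2
    have e3 : (c / b z z) • ⁅p.e, SS b z x w⁆ + (-s / b x x4) • ⁅p.e, SS b x2 x w⁆ -
        ((c / b z z) • SS b z x ⁅p.e, w⁆ + (-s / b x x4) • SS b x2 x ⁅p.e, w⁆) =
        (c / b z z) • (⁅p.e, SS b z x w⁆ - SS b z x ⁅p.e, w⁆) +
        (-s / b x x4) • (⁅p.e, SS b x2 x w⁆ - SS b x2 x ⁅p.e, w⁆) := by module
    rw [e3, e1, e2]
    module
  have h2 : ∀ w, ⁅⁅p.f, ⁅p.e, g⁆⁆, w⁆ = (6 * (-s / b x x4)) • SS b x2 x w := by
    intro w
    rw [hact p.f ((6 * (-s / b x x4)) • SS b x1 x) ⁅p.e, g⁆ h1 w]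
    simp only [LinearMap.smul_apply, lie_smul]
    have e1 := SS_lie hb p.f x1 x w
    rw [hfx1, hfx2, SS_self, LinearMap.zero_apply, add_zero] at e1
    rw [← smul_sub, e1]
  have h3 : (6 * (-s / b x x4)) • SS b x2 x ∈ imL L W := ⟨_, h2⟩
  have h4 : (c / b z z) • SS b z x ∈ imL L W := by
    have h5 := (imL L W).sub_mem hgM ((imL L W).smul_mem (1 / 6 : ℂ) h3)
    have h6 : (c / b z z) • SS b z x + (-s / b x x4) • SS b x2 x -
        (1 / 6 : ℂ) • (6 * (-s / b x x4)) • SS b x2 x = (c / b z z) • SS b z x := by module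
    rw [h6] at h5
    exact h5
  have h5 := (imL L W).smul_mem (b z z / c) h4
  rw [smul_smul] at h5
  have h6 : b z z / c * (c / b z z) = 1 := by field_simp
  rw [h6, one_smul] at h5
  exact h5

include O hb in
/-- all elementary skew endomorphisms -/
theorem all_SS [LieModule.IsIrreducible ℂ L W] (hd : finrank ℂ W = 6) (u v : W) :
    SS b u v ∈ imL L W := by
  have h0 := O.exists_g0 hb hd
  have hzi : ∀ i, SS b z (fp p x i) ∈ imL L W := by
    intro i
    induction i with
    | zero => exact h0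
    | succ n ih =>
      have h1 := imL_SS hb p.f ih
      rw [O.fz, SS_zero_left, zero_add, ← fp_succ] at h1
      exact h1
  have hij : ∀ i ≤ 4, ∀ j ≤ 4, SS b (fp p x i) (fp p x j) ∈ imL L W := by
    intro i hi j hj
    obtain ⟨g, hg⟩ := hzi i
    have h1 := imL_SS hb g (hzi j)
    rw [hg, hg, SS_apply, SS_apply, hb.symm z (fp p x j), O.xz i hi, O.xz j hj, zero_smul,
      zero_smul, sub_zero, zero_sub, SS_smul_left, ← neg_smul, SS_smul_right, SS_self, smul_zero,
      add_zero] at h1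
    have h2 := (imL L W).smul_mem (b z z)⁻¹ h1
    rw [smul_smul, inv_mul_cancel₀ O.ζ, one_smul] at h2
    exact h2
  have hiz : ∀ i, SS b (fp p x i) z ∈ imL L W := by
    intro i
    rw [SS_swap]
    exact (imL L W).neg_mem (hzi i)
  obtain ⟨c, d, hu⟩ := O.span u
  obtain ⟨c', d', hv⟩ := O.span v
  have hright : ∀ u' : W, (∀ j ≤ 4, SS b u' (fp p x j) ∈ imL L W) → SS b u' z ∈ imL L W →
      SS b u' v ∈ imL L W := by
    intro u' h1 h2
    rw [hv, SS_add_right, SS_smul_right]
    refine (imL L W).add_mem ?_ ((imL L W).smul_mem _ h2)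
    have h3 : SS b u' (∑ i ∈ Finset.range 5, c' i • fp p x i) =
        ∑ i ∈ Finset.range 5, c' i • SS b u' (fp p x i) := by
      simp only [Finset.sum_range_succ, Finset.sum_range_zero, SS_add_right, SS_smul_right,
        zero_add]
    rw [h3]
    refine (imL L W).sum_mem fun i hi => (imL L W).smul_mem _ (h1 i ?_)
    rw [Finset.mem_range] at hi; omega
  rw [hu, SS_add_left, SS_smul_left]
  refine (imL L W).add_mem ?_ ((imL L W).smul_mem _ (hright z (fun j _ => hzi j) (by
    rw [SS_self]; exact (imL L W).zero_mem)))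
  have h3 : SS b (∑ i ∈ Finset.range 5, c i • fp p x i) v =
      ∑ i ∈ Finset.range 5, c i • SS b (fp p x i) v := by
    simp only [Finset.sum_range_succ, Finset.sum_range_zero, SS_add_left, SS_smul_left,
      zero_add]
  rw [h3]
  refine (imL L W).sum_mem fun i hi => (imL L W).smul_mem _ (hright _ (fun j hj => hij i ?_ j hj)
    (hiz i))
  rw [Finset.mem_range] at hi; omega

end OZ

end

/-- The image of a semisimple Lie algebra in an irreducible orthogonal representation of dimension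
six is the full orthogonal Lie algebra. -/
theorem orth_six {L : Type*} [LieRing L] [LieAlgebra ℂ L] [FiniteDimensional ℂ L]
    [IsKilling ℂ L] {W : Type*} [AddCommGroup W] [Module ℂ W] [LieRingModule L W]
    [LieModule ℂ L W] [FiniteDimensional ℂ W] [LieModule.IsIrreducible ℂ L W]
    {b : W →ₗ[ℂ] W →ₗ[ℂ] ℂ} (hb : Orth L b) (hd : finrank ℂ W = 6) (T : Module.End ℂ W)
    (hT : ∀ u v, b (T u) v = - b u (T v)) : ∃ g : L, ∀ w, ⁅g, w⁆ = T w := by
  obtain ⟨p⟩ := exists_principal L
  obtain ⟨x, z, O⟩ := exists_oz hb hd p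
  exact skew_eq hb.symm hb.nd T hT (imL L W) (fun u v => O.all_SS hb hd u v)

end Pool.Agent.Helper7
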