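import Pool.Agent.Helper8.Lie.TopLevel

/-!
Irreducible orthogonal modules of dimension six: the principal `sl_2`.
-/

open Module LieAlgebra LieModule

namespace Pool.Agent.Helper7

open Pool.Agent.Helper8

set_option linter.unusedSectionVars false

/-- an invariant nondegenerate symmetric form on a module -/
structure Orth (L : Type*) [LieRing L] {W : Type*} [AddCommGroup W] [Module ℂ W]
    [LieRingModule L W] (b : W →ₗ[ℂ] W →ₗ[ℂ] ℂ) : Prop where
  symm : ∀ x y, b x y = b y x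
  nd : ∀ x, (∀ y, b x y = 0) → x = 0
  inv : ∀ (a : L) x y, b ⁅a, x⁆ y = - b x ⁅a, y⁆

section

variable {L : Type*} [LieRing L] [LieAlgebra ℂ L] (p : Principal L) {W : Type*} [AddCommGroup W]
  [Module ℂ W] [LieRingModule L W] [LieModule ℂ L W]

/-- eigenvectors are shifted by eigenvectors -/
lemma shift {a g : L} {c μ : ℂ} {v : W} (hg : ⁅a, g⁆ = c • g) (hv : ⁅a, v⁆ = μ • v) :
    ⁅a, ⁅g, v⁆⁆ = (μ + c) • ⁅g, v⁆ := by
  rw [leibniz_lie, hg, hv, smul_lie, lie_smul, add_smul, add_comm]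

/-- powers of `f` applied to a vector -/
noncomputable def fp (x : W) : ℕ → W
  | 0 => x
  | (i + 1) => ⁅p.f, fp x i⁆

lemma fp_zero (x : W) : fp p x 0 = x := rfl
lemma fp_succ (x : W) (i : ℕ) : fp p x (i + 1) = ⁅p.f, fp p x i⁆ := rfl

lemma h_fp {x : W} {μ : ℂ} (hx : ⁅p.h, x⁆ = μ • x) (i : ℕ) :
    ⁅p.h, fp p x i⁆ = (μ - 2 * i) • fp p x i := by
  induction i with
  | zero => simp [fp_zero, hx]
  | succ n ih =>
    rw [fp_succ, shift p.hf ih]
    congr 1
    push_cast; ring

lemma e_fp {x : W} {μ : ℂ} (hx : ⁅p.h, x⁆ = μ • x) (he : ⁅p.e, x⁆ = 0) (i : ℕ) :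
    ⁅p.e, fp p x (i + 1)⁆ = ((i + 1) * (μ - i)) • fp p x i := by
  induction i with
  | zero =>
    rw [fp_succ, fp_zero, leibniz_lie, p.ef, he, lie_zero, hx]
    simp
  | succ n ih =>
    rw [fp_succ, leibniz_lie, p.ef, ih, h_fp p hx, lie_smul, ← fp_succ, ← add_smul]
    congr 1
    push_cast; ring

variable [FiniteDimensional ℂ W] {b : W →ₗ[ℂ] W →ₗ[ℂ] ℂ} (hb : Orth L b)

include hb in
/-- eigenvectors whose eigenvalues are not opposite are orthogonal -/
lemma om_weight {μ ν : ℂ} {x y : W} (hx : ⁅p.h, x⁆ = μ • x) (hy : ⁅p.h, y⁆ = ν • y)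
    (h : μ + ν ≠ 0) : b x y = 0 := by
  have h1 := hb.inv p.h x y
  rw [hx, hy, map_smul, LinearMap.smul_apply, map_smul, smul_eq_mul, smul_eq_mul] at h1
  have h2 : (μ + ν) * b x y = 0 := by linear_combination h1
  exact (mul_eq_zero.mp h2).resolve_left h

/-- the data of a principal triple on an irreducible orthogonal module -/
structure OTop (b : W →ₗ[ℂ] W →ₗ[ℂ] ℂ) (m : ℕ) (x : W) : Prop where
  ne : x ≠ 0
  e0 : ⁅p.e, x⁆ = 0
  hx : ⁅p.h, x⁆ = (m : ℂ) • x
  uniq : ∀ w : W, ⁅p.h, w⁆ = (m : ℂ) • w → ∃ c : ℂ, w = c • x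
  wt : ∀ (μ : ℂ) (w : W), w ≠ 0 → ⁅p.h, w⁆ = μ • w → ∃ k : ℕ, μ = (m : ℂ) - 2 * k
  sum : (⊤ : Submodule ℂ W) ≤ ⨆ k : ℕ, (toEnd ℂ L W p.h).eigenspace ((m : ℂ) - 2 * k)
  fpne : ∀ i ≤ m, fp p x i ≠ 0
  pair : b x (fp p x m) ≠ 0

include hb in
lemma b_fp (x y : W) (i : ℕ) : b (fp p x i) y = (-1) ^ i * b x (fp p y i) := by
  induction i generalizing y with
  | zero => simp [fp_zero]
  | succ n ih =>
    rw [fp_succ, hb.inv, ih]
    have h1 : ∀ n, fp p ⁅p.f, y⁆ n = fp p y (n + 1) := by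
      intro n
      induction n with
      | zero => rfl
      | succ n ih => rw [fp_succ, ih, ← fp_succ]
    rw [h1]
    ring

include hb in
theorem exists_otop [LieModule.IsIrreducible ℂ L W] : ∃ m x, OTop p b m x := by
  obtain ⟨m, v, hv0, hev, hhv, huniq, htop⟩ := p.top (V := W)
  have hwt : ∀ (μ : ℂ) (w : W), w ≠ 0 → ⁅p.h, w⁆ = μ • w → ∃ k : ℕ, μ = (m : ℂ) - 2 * k := by
    intro μ w hw0 hw
    by_contra hcon
    push Not at hcon
    have h1 := Module.End.eigenspaces_iSupIndep (toEnd ℂ L W p.h) μ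
    have h2 : (⊤ : Submodule ℂ W) ≤ ⨆ (j : ℂ) (_ : j ≠ μ), (toEnd ℂ L W p.h).eigenspace j := by
      refine htop.trans (iSup_le fun k => ?_)
      exact le_iSup₂_of_le ((m : ℂ) - 2 * k) (fun h => hcon k h.symm) le_rfl
    have h3 := h1.mono_right h2
    have h4 : w ∈ (toEnd ℂ L W p.h).eigenspace μ := by
      rw [Module.End.mem_eigenspace_iff]; exact hw
    exact hw0 ((Submodule.disjoint_def.mp h3) w h4 trivial)
  have hinj : ∀ j, j ≤ m → fp p v j ≠ 0 := by
    intro j hj
    induction j with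
    | zero => exact hv0
    | succ n ih =>
      intro h0
      have h1 := e_fp p hhv hev n
      rw [h0, lie_zero] at h1
      rcases smul_eq_zero.mp h1.symm with h2 | h2
      · rcases mul_eq_zero.mp h2 with h3 | h3
        · exact (Nat.cast_add_one_ne_zero n) h3
        · have h4 : (m : ℂ) = (n : ℂ) := sub_eq_zero.mp h3
          have h5 : m = n := by exact_mod_cast h4
          omega
      · exact ih (by omega) h2
  refine ⟨m, v, hv0, hev, hhv, huniq, hwt, htop, hinj, ?_⟩
  have hspan : ∀ x : W, (∀ (k : ℕ) (y : W), ⁅p.h, y⁆ = ((m : ℂ) - 2 * k) • y → b x y = 0) →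
      x = 0 := by
    intro x hx
    apply hb.nd
    intro z
    have hz := htop (Submodule.mem_top (x := z))
    induction hz using Submodule.iSup_induction' with
    | mem k z hz => exact hx k z (Module.End.mem_eigenspace_iff.mp hz)
    | zero => rw [map_zero]
    | add y z _ _ hy hz => rw [map_add, hy, hz, add_zero]
  have hfm : ⁅p.h, fp p v m⁆ = (-(m : ℂ)) • fp p v m := by
    rw [h_fp p hhv]
    congr 1; ring
  -- a vector pairing with the top vector
  obtain ⟨k, y, hy, hvy⟩ : ∃ (k : ℕ) (y : W), ⁅p.h, y⁆ = ((m : ℂ) - 2 * k) • y ∧ b v y ≠ 0 := by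
    by_contra hcon
    push Not at hcon
    exact hv0 (hspan v (fun k y hy => hcon k y hy))
  have hk : (m : ℂ) - 2 * k = -(m : ℂ) := by
    by_contra hne
    exact hvy (om_weight p hb hhv hy (fun h => hne (by linear_combination h)))
  rw [hk] at hy
  intro h0
  apply hinj m le_rfl
  have key : b v y • fp p v m - b v (fp p v m) • y = 0 := by
    apply hspan
    intro l z hz
    by_cases h : -(m : ℂ) + ((m : ℂ) - 2 * l) = 0
    · have hl : ((m : ℂ) - 2 * l) = m := by linear_combination h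
      obtain ⟨c, rfl⟩ := huniq z (by rw [← hl]; exact hz)
      rw [map_smul, map_sub, LinearMap.sub_apply, map_smul, map_smul, LinearMap.smul_apply,
        LinearMap.smul_apply, smul_eq_mul, smul_eq_mul, hb.symm y v, hb.symm (fp p v m) v]
      rw [smul_eq_mul]; ring
    · refine om_weight p hb (μ := -(m : ℂ)) ?_ hz h
      rw [lie_sub, lie_smul, lie_smul, hfm, hy, smul_sub, smul_comm (b v y) (-(m : ℂ)),
        smul_comm (b v (fp p v m)) (-(m : ℂ))]
  rw [h0, zero_smul, sub_zero] at key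
  exact (smul_eq_zero.mp key).resolve_left hvy

variable {p} {m : ℕ} {x : W} (T : OTop p b m x)

include T in
lemma OTop.b_ne (hb : Orth L b) {i j : ℕ} (h : i + j = m) : b (fp p x i) (fp p x j) ≠ 0 := by
  have h1 : ∀ (y : W) (i j : ℕ), fp p (fp p y j) i = fp p y (i + j) := by
    intro y i j
    induction i with
    | zero => rw [fp_zero, zero_add]
    | succ n ih => rw [fp_succ, ih, ← fp_succ]; congr 1; ring
  rw [b_fp p hb, h1, h]
  exact mul_ne_zero (pow_ne_zero _ (by norm_num)) T.pair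

include T in
lemma OTop.b_zero (hb : Orth L b) {i j : ℕ} (h : i + j ≠ m) :
    b (fp p x i) (fp p x j) = 0 := by
  refine om_weight p hb (h_fp p T.hx i) (h_fp p T.hx j) (fun h0 => h ?_)
  have h1 : ((i + j : ℕ) : ℂ) = (m : ℂ) := by push_cast; linear_combination -h0 / 2
  exact_mod_cast h1

include T in
lemma OTop.even (hb : Orth L b) : Even m := by
  by_contra hodd
  rw [Nat.not_even_iff_odd] at hodd
  have h1 := b_fp p hb x x m
  rw [hodd.neg_one_pow, hb.symm] at h1
  apply T.pair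
  have h2 : (2 : ℂ) * b x (fp p x m) = 0 := by linear_combination h1
  exact (mul_eq_zero.mp h2).resolve_left two_ne_zero

include T in
/-- the vectors `f^i x` are independent -/
lemma OTop.li : LinearIndependent ℂ (fun i : Fin (m + 1) => fp p x i) := by
  refine Module.End.eigenvectors_linearIndependent' (toEnd ℂ L W p.h)
    (fun i : Fin (m + 1) => (m : ℂ) - 2 * (i : ℕ)) ?_ _ ?_
  · intro i j hij
    have h1 : ((i : ℕ) : ℂ) = ((j : ℕ) : ℂ) := by
      have : (m : ℂ) - 2 * (i : ℕ) = (m : ℂ) - 2 * (j : ℕ) := hij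
      linear_combination -this / 2
    exact Fin.ext (by exact_mod_cast h1)
  · intro i
    rw [Module.End.hasEigenvector_iff, Module.End.mem_eigenspace_iff]
    exact ⟨h_fp p T.hx i, T.fpne i (by omega)⟩

include T in
lemma OTop.le : m + 1 ≤ finrank ℂ W := by
  have h1 := T.li.fintype_card_le_finrank
  rwa [Fintype.card_fin] at h1

end

end Pool.Agent.Helper7
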