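import Pool.Agent.Helper7.O.Orth1

/-!
Irreducible orthogonal modules of dimension six: the weights of the principal `sl_2`.
-/

open Module LieAlgebra LieModule

namespace Pool.Agent.Helper7

open Pool.Agent.Helper8

set_option linter.unusedSectionVars false

section

variable {L : Type*} [LieRing L] [LieAlgebra ℂ L] {p : Principal L} {W : Type*} [AddCommGroup W]
  [Module ℂ W] [LieRingModule L W] [LieModule ℂ L W] [FiniteDimensional ℂ W]
  {b : W →ₗ[ℂ] W →ₗ[ℂ] ℂ} (hb : Orth L b) {m : ℕ} {x : W} (T : OTop p b m x)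

include hb T in
/-- a vector is zero if it is orthogonal to all weight vectors -/
lemma OTop.span_zero (v : W) (hv : ∀ (k : ℕ) (y : W), ⁅p.h, y⁆ = ((m : ℂ) - 2 * k) • y →
    b v y = 0) : v = 0 := by
  apply hb.nd
  intro z
  have hz := T.sum (Submodule.mem_top (x := z))
  induction hz using Submodule.iSup_induction' with
  | mem k z hz => exact hv k z (Module.End.mem_eigenspace_iff.mp hz)
  | zero => rw [map_zero]
  | add y z _ _ hy hz => rw [map_add, hy, hz, add_zero]

include hb T in
/-- weights are symmetric -/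
lemma OTop.neg_weight {μ : ℂ} {v : W} (hv0 : v ≠ 0) (hv : ⁅p.h, v⁆ = μ • v) :
    ∃ k : ℕ, -μ = (m : ℂ) - 2 * k := by
  by_contra hcon
  push Not at hcon
  apply hv0
  refine T.span_zero hb v (fun k y hy => ?_)
  refine om_weight p hb hv hy (fun h => hcon k ?_)
  linear_combination -h

include hb T in
/-- vectors with weight zero in the complement are killed -/
lemma OTop.weight_lt {k : ℕ} {v : W} (hv0 : v ≠ 0) (hv : ⁅p.h, v⁆ = ((m : ℂ) - 2 * k) • v) :
    k ≤ m := by
  obtain ⟨l, hl⟩ := T.neg_weight hb hv0 hv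
  have h1 : ((k + l : ℕ) : ℂ) = (m : ℂ) := by push_cast; linear_combination hl / 2
  have h2 : k + l = m := by exact_mod_cast h1
  omega

include hb T in
lemma OTop.m_ne_zero (hd : finrank ℂ W ≠ 1) : m ≠ 0 := by
  rintro rfl
  apply hd
  have h1 : ∀ v : W, ∃ c : ℂ, c • x = v := by
    intro v
    have hz := T.sum (Submodule.mem_top (x := v))
    induction hz using Submodule.iSup_induction' with
    | mem k z hz =>
      rw [Module.End.mem_eigenspace_iff] at hz
      by_cases hz0 : z = 0
      · exact ⟨0, by rw [hz0, zero_smul]⟩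
      · have h2 := T.weight_lt hb hz0 hz
        have h3 : k = 0 := by omega
        subst h3
        obtain ⟨c, hc⟩ := T.uniq z (by rw [LieModule.toEnd_apply_apply] at hz; simpa using hz)
        exact ⟨c, hc.symm⟩
    | zero => exact ⟨0, by rw [zero_smul]⟩
    | add y z _ _ hy hz =>
      obtain ⟨c, hc⟩ := hy
      obtain ⟨d, hd⟩ := hz
      exact ⟨c + d, by rw [add_smul, hc, hd]⟩
  exact finrank_eq_one_iff_of_nonzero' x T.ne |>.mpr h1

/-- the complement of the irreducible `sl_2`-module of the top vector -/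
def perpU (b : W →ₗ[ℂ] W →ₗ[ℂ] ℂ) (p : Principal L) (m : ℕ) (x : W) : Submodule ℂ W where
  carrier := {v | ∀ i ≤ m, b (fp p x i) v = 0}
  zero_mem' i _ := by rw [map_zero]
  add_mem' {u v} hu hv i hi := by rw [map_add, hu i hi, hv i hi, add_zero]
  smul_mem' c v hv i hi := by rw [map_smul, hv i hi, smul_zero]

lemma mem_perpU (v : W) : v ∈ perpU b p m x ↔ ∀ i ≤ m, b (fp p x i) v = 0 := Iff.rfl

include hb T in
/-- the component of a vector in the complement -/
lemma OTop.decomp (w : W) : ∃ c : ℕ → ℂ, w - ∑ i ∈ Finset.range (m + 1), c i • fp p x i ∈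
    perpU b p m x := by
  refine ⟨fun i => b (fp p x (m - i)) w / b (fp p x (m - i)) (fp p x i), fun j hj => ?_⟩
  rw [map_sub, map_sum, Finset.sum_eq_single (m - j)]
  · have h1 : m - (m - j) = j := by omega
    simp only [map_smul, smul_eq_mul, h1]
    rw [div_mul_cancel₀ _ (T.b_ne hb (by omega)), sub_self]
  · intro i _ hi
    rw [map_smul, T.b_zero hb (by omega), smul_zero]
  · intro h
    exact absurd (Finset.mem_range.mpr (by omega)) h

include hb T in
/-- the form on the complement is nondegenerate -/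
lemma OTop.nd_perp {v : W} (hv : v ∈ perpU b p m x) (hv0 : v ≠ 0) :
    ∃ u ∈ perpU b p m x, b v u ≠ 0 := by
  by_contra hcon
  push Not at hcon
  apply hv0
  apply hb.nd
  intro w
  obtain ⟨c, hc⟩ := T.decomp hb w
  have h1 := hcon _ hc
  rw [map_sub, map_sum, sub_eq_zero] at h1
  rw [h1]
  refine Finset.sum_eq_zero fun i hi => ?_
  rw [map_smul, hb.symm, hv i (by rw [Finset.mem_range] at hi; omega), smul_zero]

include hb T in
/-- powers beyond the last one vanish -/
lemma OTop.fp_last : fp p x (m + 1) = 0 := by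
  by_contra hne
  have h1 := h_fp p T.hx (m + 1)
  have h2 := T.weight_lt hb hne h1
  omega

include hb T in
lemma OTop.perp_f {v : W} (hv : v ∈ perpU b p m x) : ⁅p.f, v⁆ ∈ perpU b p m x := by
  intro i hi
  have h1 := hb.inv p.f (fp p x i) v
  rw [← fp_succ] at h1
  by_cases h2 : i + 1 ≤ m
  · rw [hv _ h2] at h1
    linear_combination h1
  · have h3 : i = m := by omega
    subst h3
    rw [T.fp_last hb, map_zero, LinearMap.zero_apply] at h1
    linear_combination h1

include hb T in
lemma OTop.perp_e {v : W} (hv : v ∈ perpU b p m x) : ⁅p.e, v⁆ ∈ perpU b p m x := by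
  intro i hi
  have h1 := hb.inv p.e (fp p x i) v
  rcases Nat.eq_zero_or_pos i with rfl | h2
  · rw [fp_zero, T.e0, map_zero, LinearMap.zero_apply] at h1
    rw [fp_zero]
    linear_combination h1
  · obtain ⟨j, rfl⟩ : ∃ j, i = j + 1 := ⟨i - 1, by omega⟩
    rw [e_fp p T.hx T.e0, map_smul, LinearMap.smul_apply, hv j (by omega), smul_zero] at h1
    linear_combination h1

include hb T in
lemma OTop.perp_h {v : W} (hv : v ∈ perpU b p m x) : ⁅p.h, v⁆ ∈ perpU b p m x := by
  intro i hi
  have h1 := hb.inv p.h (fp p x i) v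
  rw [h_fp p T.hx, map_smul, LinearMap.smul_apply, hv i hi, smul_zero] at h1
  linear_combination h1

include hb T in
/-- the top weight does not occur in the complement -/
lemma OTop.perp_top {v : W} (hv : v ∈ perpU b p m x) (h : ⁅p.h, v⁆ = (m : ℂ) • v) : v = 0 := by
  obtain ⟨c, rfl⟩ := T.uniq v h
  have h1 := hv m le_rfl
  rw [map_smul, hb.symm, smul_eq_mul] at h1
  rw [(mul_eq_zero.mp h1).resolve_right T.pair, zero_smul]

/-- the dimension of the complement -/
lemma OTop.finrank_perp (T : OTop p b m x) (hb : Orth L b) :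
    finrank ℂ (perpU b p m x) + (m + 1) = finrank ℂ W := by
  let φ : W →ₗ[ℂ] (Fin (m + 1) → ℂ) :=
    LinearMap.pi (fun i => b (fp p x (m - i)))
  have hker : LinearMap.ker φ = perpU b p m x := by
    ext v
    rw [LinearMap.mem_ker, mem_perpU]
    constructor
    · intro h i hi
      have h1 := congrFun h ⟨m - i, by omega⟩
      have h2 : m - (m - i) = i := by omega
      simp only [φ, LinearMap.pi_apply, h2, Pi.zero_apply] at h1
      exact h1
    · intro h
      funext i
      exact h _ (by omega)
  have hsurj : Function.Surjective φ := by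
    intro c
    refine ⟨∑ i : Fin (m + 1), (c i / b (fp p x (m - i)) (fp p x i)) • fp p x i, ?_⟩
    funext j
    show b (fp p x (m - j)) (∑ i : Fin (m + 1), _) = c j
    rw [map_sum, Finset.sum_eq_single j]
    · rw [map_smul, smul_eq_mul, div_mul_cancel₀ _ (T.b_ne hb (by omega))]
    · intro i _ hi
      have h3 : (i : ℕ) ≠ j := fun h => hi (Fin.ext h)
      rw [map_smul, T.b_zero hb (i := m - (j : ℕ)) (j := (i : ℕ)) (by omega), smul_zero]
    · intro h; exact absurd (Finset.mem_univ _) h
  have h1 := LinearMap.finrank_range_add_finrank_ker φ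
  rw [hker, LinearMap.range_eq_top.mpr hsurj, finrank_top, Module.finrank_fintype_fun_eq_card,
    Fintype.card_fin] at h1
  omega

end

end Pool.Agent.Helper7
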