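import Pool.Agent.Helper7.O.Orth2

/-!
Irreducible orthogonal modules of dimension six: the top weight is four.
-/

open Module LieAlgebra LieModule

namespace Pool.Agent.Helper7

open Pool.Agent.Helper8

set_option linter.unusedSectionVars false

section

variable {L : Type*} [LieRing L] [LieAlgebra ℂ L] (p : Principal L)

/-- elements commuting with `h` commute with each other -/
lemma Principal.comm {a c : L} (ha : ⁅p.h, a⁆ = 0) (hc : ⁅p.h, c⁆ = 0) : ⁅a, c⁆ = 0 := by
  have key : ∀ a : L, ⁅p.h, a⁆ = 0 → a ∈ p.Z := by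
    intro a ha
    obtain ⟨u, hu, v, hv, rfl⟩ := Submodule.mem_sup.mp (p.dec a)
    obtain ⟨a0, ha0, a1, ha1, rfl⟩ := Submodule.mem_sup.mp hu
    have h0 : ⁅p.h, a0⁆ = 0 := p.ab _ p.hZ _ ha0
    have h1 : a1 + v ∈ (toEnd ℂ L L p.h).eigenspace 0 := by
      rw [Module.End.mem_eigenspace_iff, LieModule.toEnd_apply_apply, zero_smul, lie_add]
      rw [lie_add, lie_add, h0, zero_add] at ha
      exact ha
    have h2 : a1 + v ∈ ⨆ (j : ℂ) (_ : j ≠ 0), (toEnd ℂ L L p.h).eigenspace j := by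
      refine Submodule.add_mem _ ?_ ?_
      · have h3 : Submodule.span ℂ {y : L | ∃ n : ℕ, ⁅p.h, y⁆ = (2 * (n + 1) : ℂ) • y} ≤
            ⨆ (j : ℂ) (_ : j ≠ 0), (toEnd ℂ L L p.h).eigenspace j := by
          rw [Submodule.span_le]
          rintro y ⟨n, hn⟩
          have h4 : (2 * (n + 1) : ℂ) ≠ 0 := mul_ne_zero two_ne_zero (Nat.cast_add_one_ne_zero n)
          exact Submodule.mem_iSup_of_mem _ (Submodule.mem_iSup_of_mem h4
            (Module.End.mem_eigenspace_iff.mpr hn))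
        exact h3 ha1
      · have h3 : Submodule.span ℂ {y : L | ∃ n : ℕ, ⁅p.h, y⁆ = (-2 * (n + 1) : ℂ) • y} ≤
            ⨆ (j : ℂ) (_ : j ≠ 0), (toEnd ℂ L L p.h).eigenspace j := by
          rw [Submodule.span_le]
          rintro y ⟨n, hn⟩
          have h4 : (-2 * (n + 1) : ℂ) ≠ 0 :=
            mul_ne_zero (by norm_num) (Nat.cast_add_one_ne_zero n)
          exact Submodule.mem_iSup_of_mem _ (Submodule.mem_iSup_of_mem h4
            (Module.End.mem_eigenspace_iff.mpr hn))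
        exact h3 hv
    have h3 := Module.End.eigenspaces_iSupIndep (toEnd ℂ L L p.h) 0
    have h4 := (Submodule.disjoint_def.mp h3) _ h1 h2
    rw [add_assoc, h4, add_zero]
    exact ha0
  exact p.ab _ (key a ha) _ (key c hc)

/-- induction over the decomposition of a Lie algebra by a principal triple -/
lemma Principal.ind {P : L → Prop} (h0 : ∀ g ∈ p.Z, P g)
    (h1 : ∀ (n : ℕ) g, ⁅p.h, g⁆ = (2 * (n + 1) : ℂ) • g → P g)
    (h2 : ∀ (n : ℕ) g, ⁅p.h, g⁆ = (-2 * (n + 1) : ℂ) • g → P g)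
    (hz : P 0) (ha : ∀ a c, P a → P c → P (a + c)) (hs : ∀ (t : ℂ) a, P a → P (t • a)) (g : L) :
    P g := by
  obtain ⟨u, hu, v, hv, rfl⟩ := Submodule.mem_sup.mp (p.dec g)
  obtain ⟨a0, ha0, a1, ha1, rfl⟩ := Submodule.mem_sup.mp hu
  refine ha _ _ (ha _ _ (h0 a0 ha0) ?_) ?_
  · clear hu
    induction ha1 using Submodule.span_induction with
    | mem y hy => obtain ⟨n, hn⟩ := hy; exact h1 n y hn
    | zero => exact hz
    | add y z _ _ hy hz => exact ha _ _ hy hz
    | smul c y _ hy => exact hs _ _ hy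
  · induction hv using Submodule.span_induction with
    | mem y hy => obtain ⟨n, hn⟩ := hy; exact h2 n y hn
    | zero => exact hz
    | add y z _ _ hy hz => exact ha _ _ hy hz
    | smul c y _ hy => exact hs _ _ hy

variable {p} {W : Type*} [AddCommGroup W]
  [Module ℂ W] [LieRingModule L W] [LieModule ℂ L W] [FiniteDimensional ℂ W]
  {b : W →ₗ[ℂ] W →ₗ[ℂ] ℂ} (hb : Orth L b) {m : ℕ} {x : W} (T : OTop p b m x)

include hb T in
/-- the lowest weight has multiplicity one -/
lemma OTop.bot {w : W} (hw : ⁅p.h, w⁆ = (-(m : ℂ)) • w) :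
    w = (b x w / b x (fp p x m)) • fp p x m := by
  rw [← sub_eq_zero]
  refine T.span_zero hb _ (fun k y hy => ?_)
  have h1 : ⁅p.h, fp p x m⁆ = (-(m : ℂ)) • fp p x m := by
    rw [h_fp p T.hx]; congr 1; ring
  by_cases h : (m : ℂ) - 2 * k = m
  · rw [h] at hy
    obtain ⟨c, rfl⟩ := T.uniq y hy
    rw [map_smul, map_sub, LinearMap.sub_apply, map_smul, LinearMap.smul_apply, smul_eq_mul,
      smul_eq_mul, hb.symm w x, hb.symm (fp p x m) x, div_mul_cancel₀ _ T.pair, sub_self,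
      mul_zero]
  · refine om_weight p hb (μ := -(m : ℂ)) ?_ hy (fun h0 => h (by linear_combination h0))
    rw [lie_sub, lie_smul, hw, h1, smul_sub, smul_comm]

include hb T in
/-- eigenvectors with an eigenvalue which is not a weight vanish -/
lemma OTop.zero_of {μ : ℂ} {w : W} (hw : ⁅p.h, w⁆ = μ • w)
    (hμ : ∀ k : ℕ, k ≤ m → μ ≠ (m : ℂ) - 2 * k) : w = 0 := by
  by_contra hne
  obtain ⟨k, hk⟩ := T.wt μ w hne hw
  rw [hk] at hw
  exact hμ k (T.weight_lt hb hne hw) hk

include hb T in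
theorem OTop.m_ne_two [LieModule.IsIrreducible ℂ L W] (hd : 4 < finrank ℂ W) : m ≠ 2 := by
  rintro rfl
  set x1 := fp p x 1 with hx1
  set x2 := fp p x 2 with hx2
  have hβ : b x x2 ≠ 0 := T.pair
  have hhx : ⁅p.h, x⁆ = (2 : ℂ) • x := by have := T.hx; simpa using this
  have hhx1 : ⁅p.h, x1⁆ = 0 := by
    rw [hx1, h_fp p T.hx]; norm_num
  have hhx2 : ⁅p.h, x2⁆ = (-2 : ℂ) • x2 := by
    rw [hx2, h_fp p T.hx]; congr 1; norm_num
  have hex1 : ⁅p.e, x1⁆ = (2 : ℂ) • x := by
    have := e_fp p T.hx T.e0 0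
    rw [fp_zero] at this
    rw [hx1, this]; congr 1; norm_num
  have hex2 : ⁅p.e, x2⁆ = (2 : ℂ) • x1 := by
    have := e_fp p T.hx T.e0 1
    rw [hx2, this]; congr 1; norm_num
  -- the weight spaces
  have htop : ∀ w : W, ⁅p.h, w⁆ = (2 : ℂ) • w → ∃ c : ℂ, w = c • x := by
    intro w hw
    exact T.uniq w (by simpa using hw)
  have hbot : ∀ w : W, ⁅p.h, w⁆ = (-2 : ℂ) • w → w = (b x w / b x x2) • x2 := by
    intro w hw
    exact T.bot hb (by simpa using hw)
  have hzero : ∀ (μ : ℂ) (w : W), ⁅p.h, w⁆ = μ • w → μ ≠ 2 → μ ≠ 0 → μ ≠ -2 → w = 0 := by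
    intro μ w hw h1 h2 h3
    refine T.zero_of hb hw (fun k hk => ?_)
    interval_cases k
    · simpa using h1
    · simpa using h2
    · intro h; apply h3; rw [h]; norm_num
  -- the complement has weight zero
  have hN : ∀ v ∈ perpU b p 2 x, ⁅p.h, v⁆ = 0 ∧ ⁅p.e, v⁆ = 0 := by
    have h0 : ∀ v : W, ∃ (a c : ℂ) (u : W), ⁅p.h, u⁆ = 0 ∧ v = a • x + u + c • x2 := by
      intro v
      have hz := T.sum (Submodule.mem_top (x := v))
      induction hz using Submodule.iSup_induction' with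
      | mem k z hz =>
        rw [Module.End.mem_eigenspace_iff, LieModule.toEnd_apply_apply] at hz
        by_cases hz0 : z = 0
        · exact ⟨0, 0, 0, lie_zero _, by rw [hz0]; simp⟩
        · have h2 := T.weight_lt hb hz0 hz
          interval_cases k
          · obtain ⟨c, hc⟩ := htop z (by rw [hz]; congr 1; norm_num)
            exact ⟨c, 0, 0, lie_zero _, by rw [hc]; simp⟩
          · exact ⟨0, 0, z, by rw [hz]; norm_num, by simp⟩
          · have h3 := hbot z (by rw [hz]; congr 1; norm_num)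
            exact ⟨0, _, 0, lie_zero _, by rw [zero_smul, add_zero, zero_add]; exact h3⟩
      | zero => exact ⟨0, 0, 0, lie_zero _, by simp⟩
      | add y z _ _ hy hz =>
        obtain ⟨a, c, u, hu, rfl⟩ := hy
        obtain ⟨a', c', u', hu', rfl⟩ := hz
        exact ⟨a + a', c + c', u + u', by rw [lie_add, hu, hu', add_zero], by module⟩
    intro v hv
    obtain ⟨a, c, u, hu, rfl⟩ := h0 v
    have hu0 : ⁅p.h, u⁆ = (0 : ℂ) • u := by rw [hu, zero_smul]
    have e1 := hv 2 le_rfl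
    have e2 := hv 0 (by norm_num)
    rw [fp_zero] at e2
    rw [← hx2] at e1
    have z1 : b x2 u = 0 := om_weight p hb hhx2 hu0 (by norm_num)
    have z2 : b x2 x2 = 0 := om_weight p hb hhx2 hhx2 (by norm_num)
    have z3 : b x x = 0 := om_weight p hb hhx hhx (by norm_num)
    have z4 : b x u = 0 := om_weight p hb hhx hu0 (by norm_num)
    rw [map_add, map_add, map_smul, map_smul, z1, z2, smul_zero, add_zero, add_zero,
      hb.symm, smul_eq_mul] at e1
    rw [map_add, map_add, map_smul, map_smul, z3, z4, smul_zero, zero_add, zero_add,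
      smul_eq_mul] at e2
    have ha := (mul_eq_zero.mp e1).resolve_right hβ
    have hc := (mul_eq_zero.mp e2).resolve_right hβ
    subst ha hc
    rw [zero_smul, zero_smul, zero_add, add_zero] at hv ⊢
    refine ⟨hu, ?_⟩
    have h1 := shift p.he hu0
    refine T.perp_top hb (T.perp_e hb hv) ?_
    rw [h1]; congr 1; norm_num
  -- the stable subspace
  let S : Submodule ℂ W :=
    { carrier := {w | ∃ (a c : ℂ) (y : L), ⁅p.h, y⁆ = (-2 : ℂ) • y ∧
        w = a • x + ⁅y, x⁆ + c • x2}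
      zero_mem' := ⟨0, 0, 0, by simp, by simp⟩
      add_mem' := by
        rintro _ _ ⟨a, c, y, hy, rfl⟩ ⟨a', c', y', hy', rfl⟩
        exact ⟨a + a', c + c', y + y', by rw [lie_add, hy, hy', smul_add], by
          rw [add_lie]; module⟩
      smul_mem' := by
        rintro t _ ⟨a, c, y, hy, rfl⟩
        exact ⟨t * a, t * c, t • y, by rw [lie_smul, hy, smul_comm], by
          rw [smul_lie]; module⟩ }
  have Sx : x ∈ S := ⟨1, 0, 0, by simp, by simp⟩
  have Sx2 : x2 ∈ S := ⟨0, 1, 0, by simp, by simp⟩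
  have Sy : ∀ y : L, ⁅p.h, y⁆ = (-2 : ℂ) • y → ⁅y, x⁆ ∈ S := fun y hy =>
    ⟨0, 0, y, hy, by simp⟩
  have Stop : ∀ w : W, ⁅p.h, w⁆ = (2 : ℂ) • w → w ∈ S := by
    intro w hw
    obtain ⟨c, rfl⟩ := htop w hw
    exact S.smul_mem _ Sx
  have Sbot : ∀ w : W, ⁅p.h, w⁆ = (-2 : ℂ) • w → w ∈ S := by
    intro w hw
    rw [hbot w hw]
    exact S.smul_mem _ Sx2
  have h0x : ∀ g : L, ⁅p.h, g⁆ = 0 → ∃ c : ℂ, ⁅g, x⁆ = c • x := by
    intro g hg
    refine htop _ ?_
    have := shift (c := 0) (by rw [hg, zero_smul]) hhx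
    rw [this]; congr 1; norm_num
  have hyx : ∀ y : L, ⁅p.h, y⁆ = (-2 : ℂ) • y → ⁅p.h, ⁅y, x⁆⁆ = (0 : ℂ) • ⁅y, x⁆ := by
    intro y hy
    rw [shift hy hhx]; congr 1; norm_num
  have hstab : ∀ g : L, ∀ v ∈ S, ⁅g, v⁆ ∈ S := by
    intro g
    refine Principal.ind p (P := fun g => ∀ v ∈ S, ⁅g, v⁆ ∈ S) ?_ ?_ ?_ ?_ ?_ ?_ g
    · rintro g hg _ ⟨a, c, y, hy, rfl⟩
      have hg0 : ⁅p.h, g⁆ = 0 := p.ab _ p.hZ _ hg
      obtain ⟨t, ht⟩ := h0x g hg0
      rw [lie_add, lie_add, lie_smul, lie_smul, ht]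
      refine S.add_mem (S.add_mem (S.smul_mem _ (S.smul_mem _ Sx)) ?_) (S.smul_mem _ ?_)
      · rw [leibniz_lie, ht, lie_smul]
        refine S.add_mem (Sy _ ?_) (S.smul_mem _ (Sy y hy))
        rw [leibniz_lie, hg0, zero_lie, zero_add, hy, lie_smul]
      · refine Sbot _ ?_
        rw [leibniz_lie, hg0, zero_lie, zero_add, hhx2, lie_smul]
    · rintro n g hg _ ⟨a, c, y, hy, rfl⟩
      have e1 := shift hg hhx
      have e2 := shift hg (hyx y hy)
      have e3 := shift hg hhx2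
      have hgx : ⁅g, x⁆ = 0 := by
        refine T.zero_of hb e1 (fun k _ hk => ?_)
        have h1 : ((n + k + 1 : ℕ) : ℂ) = 0 := by
          push_cast at hk ⊢; linear_combination hk / 2
        have h2 : n + k + 1 = 0 := by exact_mod_cast h1
        omega
      rw [lie_add, lie_add, lie_smul, lie_smul, hgx, smul_zero, zero_add]
      refine S.add_mem ?_ (S.smul_mem _ ?_)
      · by_cases hz : ⁅g, ⁅y, x⁆⁆ = 0
        · rw [hz]; exact S.zero_mem
        · obtain ⟨k, hk⟩ := T.wt _ _ hz e2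
          have h1 : ((n + k : ℕ) : ℂ) = 0 := by
            push_cast at hk ⊢; linear_combination hk / 2
          have h2 : n + k = 0 := by exact_mod_cast h1
          have h3 : n = 0 := by omega
          subst h3
          refine Stop _ ?_
          rw [e2]; congr 1; norm_num
      · rcases Nat.eq_zero_or_pos n with rfl | hn
        · obtain ⟨t, ht⟩ := h0x ⁅g, p.f⁆ (by
            rw [leibniz_lie, hg, p.hf, smul_lie, lie_smul, ← add_smul]
            norm_num)
          have h4 : ⁅g, x2⁆ = ⁅⁅⁅g, p.f⁆, p.f⁆, x⁆ + (2 * t) • ⁅p.f, x⁆ := by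
            have f1 : x2 = ⁅p.f, ⁅p.f, x⁆⁆ := rfl
            rw [f1, leibniz_lie g p.f, leibniz_lie ⁅g, p.f⁆ p.f x, ht, leibniz_lie g p.f x, ht,
              hgx, lie_zero, add_zero, lie_smul]
            module
          rw [h4]
          refine S.add_mem (Sy _ ?_) (S.smul_mem _ (Sy _ p.hf))
          rw [leibniz_lie, leibniz_lie, hg, p.hf, smul_lie, lie_smul, lie_smul, ← add_smul,
            smul_lie, ← add_smul]
          congr 1; norm_num
        · by_cases hz : ⁅g, x2⁆ = 0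
          · rw [hz]; exact S.zero_mem
          · obtain ⟨k, hk⟩ := T.wt _ _ hz e3
            have h1 : ((n + k : ℕ) : ℂ) = 1 := by
              push_cast at hk ⊢; linear_combination hk / 2
            have h2 : n + k = 1 := by exact_mod_cast h1
            have h3 : n = 1 := by omega
            subst h3
            refine Stop _ ?_
            rw [e3]; congr 1; norm_num
    · rintro n g hg _ ⟨a, c, y, hy, rfl⟩
      have e1 := shift hg hhx
      have e2 := shift hg (hyx y hy)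
      have e3 := shift hg hhx2
      have hgx2 : ⁅g, x2⁆ = 0 := by
        refine T.zero_of hb e3 (fun k hk2 hk => ?_)
        have h1 : ((n + 3 : ℕ) : ℂ) = (k : ℂ) := by
          push_cast at hk ⊢; linear_combination -hk / 2
        have h2 : n + 3 = k := by exact_mod_cast h1
        omega
      rw [lie_add, lie_add, lie_smul, lie_smul, hgx2, smul_zero, add_zero]
      refine S.add_mem (S.smul_mem _ ?_) ?_
      · rcases Nat.eq_zero_or_pos n with rfl | hn
        · exact Sy g (by rw [hg]; congr 1; norm_num)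
        · by_cases hz : ⁅g, x⁆ = 0
          · rw [hz]; exact S.zero_mem
          · obtain ⟨k, hk⟩ := T.wt _ _ hz e1
            have h1 : ((n + 1 : ℕ) : ℂ) = (k : ℂ) := by
              push_cast at hk ⊢; linear_combination -hk / 2
            have h2 : n + 1 = k := by exact_mod_cast h1
            rw [hk] at e1
            have h3 := T.weight_lt hb hz e1
            have h4 : k = 2 := by omega
            subst h4
            refine Sbot _ ?_
            rw [e1]; congr 1; norm_num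
      · by_cases hz : ⁅g, ⁅y, x⁆⁆ = 0
        · rw [hz]; exact S.zero_mem
        · obtain ⟨k, hk⟩ := T.wt _ _ hz e2
          have h1 : ((n + 2 : ℕ) : ℂ) = (k : ℂ) := by
            push_cast at hk ⊢; linear_combination -hk / 2
          have h2 : n + 2 = k := by exact_mod_cast h1
          rw [hk] at e2
          have h3 := T.weight_lt hb hz e2
          have h4 : k = 2 := by omega
          subst h4
          refine Sbot _ ?_
          rw [e2]; congr 1; norm_num
    · intro v _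
      rw [zero_lie]; exact S.zero_mem
    · intro a c ha hc v hv
      rw [add_lie]; exact S.add_mem (ha v hv) (hc v hv)
    · intro t a ha v hv
      rw [smul_lie]; exact S.smul_mem _ (ha v hv)
  have hStop : S = ⊤ := by
    rcases irr_cases S hstab with h | h
    · exfalso
      apply T.ne
      rw [h] at Sx
      exact (Submodule.mem_bot ℂ).mp Sx
    · exact h
  -- lifting the vectors of the complement
  have hlift : ∀ v ∈ perpU b p 2 x, ∃ y : L, ⁅p.h, y⁆ = (-2 : ℂ) • y ∧ ⁅y, x⁆ = v := by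
    intro v hv
    have h1 : v ∈ S := by rw [hStop]; trivial
    obtain ⟨a, c, y, hy, hvy⟩ := h1
    have e1 := hv 2 le_rfl
    have e2 := hv 0 (by norm_num)
    rw [fp_zero] at e2
    rw [← hx2] at e1
    rw [hvy] at e1 e2
    have z1 : b x2 ⁅y, x⁆ = 0 := om_weight p hb hhx2 (hyx y hy) (by norm_num)
    have z2 : b x2 x2 = 0 := om_weight p hb hhx2 hhx2 (by norm_num)
    have z3 : b x x = 0 := om_weight p hb hhx hhx (by norm_num)
    have z4 : b x ⁅y, x⁆ = 0 := om_weight p hb hhx (hyx y hy) (by norm_num)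
    rw [map_add, map_add, map_smul, map_smul, z1, z2, smul_zero, add_zero, add_zero,
      hb.symm, smul_eq_mul] at e1
    rw [map_add, map_add, map_smul, map_smul, z3, z4, smul_zero, zero_add, zero_add,
      smul_eq_mul] at e2
    have ha := (mul_eq_zero.mp e1).resolve_right hβ
    have hc := (mul_eq_zero.mp e2).resolve_right hβ
    subst ha hc
    rw [zero_smul, zero_smul, zero_add, add_zero] at hvy
    exact ⟨y, hy, hvy.symm⟩
  -- two vectors of the complement are proportional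
  have hdim := T.finrank_perp hb
  have hN0 : 1 < finrank ℂ (perpU b p 2 x) := by omega
  have hnt : Nontrivial (perpU b p 2 x) := Module.nontrivial_of_finrank_pos (R := ℂ) (by omega)
  obtain ⟨⟨n1, hn1⟩, hn10⟩ := exists_ne (0 : perpU b p 2 x)
  have hn10' : n1 ≠ 0 := fun h => hn10 (Subtype.ext h)
  have hact : ∀ y : L, ⁅p.h, y⁆ = (-2 : ℂ) • y → ⁅y, x⁆ ∈ perpU b p 2 x →
      (∀ u ∈ perpU b p 2 x, ⁅⁅p.e, y⁆, u⁆ = (-2 * (b ⁅y, x⁆ u) / b x x2) • x1) ∧
      ⁅⁅p.e, y⁆, x1⁆ = (-2 : ℂ) • ⁅y, x⁆ := by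
    intro y hy hyN
    have h1 : ∀ w : W, ⁅p.h, w⁆ = 0 → ⁅y, w⁆ = (-(b ⁅y, x⁆ w) / b x x2) • x2 := by
      intro w hw
      have h2 := hbot ⁅y, w⁆ (by
        rw [leibniz_lie, hy, hw, lie_zero, add_zero, smul_lie])
      rw [h2]
      congr 2
      rw [hb.inv, neg_neg]
    refine ⟨fun u hu => ?_, ?_⟩
    · have h2 : ⁅⁅p.e, y⁆, u⁆ = ⁅p.e, ⁅y, u⁆⁆ - ⁅y, ⁅p.e, u⁆⁆ := by rw [leibniz_lie p.e]; abel
      rw [h2, (hN u hu).2, lie_zero, sub_zero, h1 u (hN u hu).1, lie_smul, hex2, smul_smul]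
      congr 1; ring
    · have h2 : ⁅⁅p.e, y⁆, x1⁆ = ⁅p.e, ⁅y, x1⁆⁆ - ⁅y, ⁅p.e, x1⁆⁆ := by rw [leibniz_lie p.e]; abel
      have h3 : b ⁅y, x⁆ x1 = 0 := by
        rw [hb.symm]; exact hyN 1 (by norm_num)
      rw [h2, h1 x1 hhx1, h3, neg_zero, zero_div, zero_smul, lie_zero, zero_sub, hex1, lie_smul,
        ← neg_smul]
  have hprop : ∀ v : perpU b p 2 x, ∃ c : ℂ, c • (⟨n1, hn1⟩ : perpU b p 2 x) = v := by
    rintro ⟨n2, hn2⟩
    obtain ⟨y1, hy1, e1⟩ := hlift n1 hn1
    obtain ⟨y2, hy2, e2⟩ := hlift n2 hn2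
    obtain ⟨a1, c1⟩ := hact y1 hy1 (by rw [e1]; exact hn1)
    obtain ⟨a2, c2⟩ := hact y2 hy2 (by rw [e2]; exact hn2)
    obtain ⟨u, hu, hu0⟩ := T.nd_perp hb hn1 hn10'
    have hz : ∀ y : L, ⁅p.h, y⁆ = (-2 : ℂ) • y → ⁅p.h, ⁅p.e, y⁆⁆ = 0 := by
      intro y hy
      rw [leibniz_lie, p.he, hy, smul_lie, lie_smul, ← add_smul]
      norm_num
    have hc := Principal.comm p (hz y1 hy1) (hz y2 hy2)
    have h1 : ⁅⁅p.e, y1⁆, ⁅⁅p.e, y2⁆, u⁆⁆ = ⁅⁅p.e, y2⁆, ⁅⁅p.e, y1⁆, u⁆⁆ := by
      rw [leibniz_lie ⁅p.e, y1⁆, hc, zero_lie, zero_add]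
    rw [a1 u hu, a2 u hu, lie_smul, lie_smul, c1, c2, e1, e2, smul_smul, smul_smul] at h1
    refine ⟨(b n2 u) / (b n1 u), Subtype.ext ?_⟩
    show ((b n2 u) / (b n1 u)) • n1 = n2
    have h2 : (b n1 u) • n2 = (b n2 u) • n1 := by
      have h3 := congrArg (fun w => (b x x2 / 4) • w) h1
      simp only [smul_smul] at h3
      have k1 : b x x2 / 4 * (-2 * (b n2) u / (b x) x2 * -2) = b n2 u := by field_simp; ring
      have k2 : b x x2 / 4 * (-2 * (b n1) u / (b x) x2 * -2) = b n1 u := by field_simp; ring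
      rw [k1, k2] at h3
      exact h3.symm
    rw [div_eq_inv_mul, ← smul_smul, ← h2, smul_smul, inv_mul_cancel₀ hu0, one_smul]
  have h1 := finrank_le_one (⟨n1, hn1⟩ : perpU b p 2 x) hprop
  omega

include hb T in
theorem OTop.m_eq_four [LieModule.IsIrreducible ℂ L W] (hd : finrank ℂ W = 6) : m = 4 := by
  have h1 := T.le
  have h2 := T.even hb
  have h3 := T.m_ne_zero hb (by omega)
  have h4 := T.m_ne_two hb (by omega)
  obtain ⟨k, hk⟩ := h2
  omega

end

end Pool.Agent.Helper7
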