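import Pool.Agent.Helper7.O.Orth3

/-!
Irreducible orthogonal modules of dimension six: the image is the full orthogonal Lie algebra.
-/

open Module LieAlgebra LieModule

namespace Pool.Agent.Helper7

open Pool.Agent.Helper8

set_option linter.unusedSectionVars false

section S

variable {W : Type*} [AddCommGroup W] [Module ℂ W] (b : W →ₗ[ℂ] W →ₗ[ℂ] ℂ)

/-- the elementary skew endomorphisms -/
noncomputable def SS (u v : W) : Module.End ℂ W := (b u).smulRight v - (b v).smulRight u

lemma SS_apply (u v w : W) : SS b u v w = b u w • v - b v w • u := rfl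

lemma SS_swap (u v : W) : SS b u v = - SS b v u := by
  ext w; simp only [SS_apply, LinearMap.neg_apply]; abel

lemma SS_self (u : W) : SS b u u = 0 := by
  ext w; simp only [SS_apply, LinearMap.zero_apply, sub_self]

lemma SS_add_left (u u' v : W) : SS b (u + u') v = SS b u v + SS b u' v := by
  ext w
  simp only [SS_apply, LinearMap.add_apply, map_add, smul_add, add_smul]; abel

lemma SS_add_right (u v v' : W) : SS b u (v + v') = SS b u v + SS b u v' := by
  ext w
  simp only [SS_apply, LinearMap.add_apply, map_add, smul_add, add_smul]; abel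

lemma SS_smul_left (c : ℂ) (u v : W) : SS b (c • u) v = c • SS b u v := by
  ext w
  simp only [SS_apply, LinearMap.smul_apply, map_smul, smul_sub, smul_smul, smul_eq_mul,
    mul_comm]

lemma SS_smul_right (c : ℂ) (u v : W) : SS b u (c • v) = c • SS b u v := by
  ext w
  simp only [SS_apply, LinearMap.smul_apply, map_smul, smul_sub, smul_smul, smul_eq_mul,
    mul_comm]

lemma SS_zero_left (v : W) : SS b 0 v = 0 := by
  ext w; simp [SS_apply]

lemma SS_zero_right (v : W) : SS b v 0 = 0 := by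
  ext w; simp [SS_apply]

variable {b}

/-- every skew endomorphism is a combination of the elementary ones -/
lemma skew_eq [FiniteDimensional ℂ W] (hsymm : ∀ x y, b x y = b y x)
    (hnd : ∀ x, (∀ y, b x y = 0) → x = 0) (T : Module.End ℂ W)
    (hT : ∀ u v, b (T u) v = - b u (T v)) (M : Submodule ℂ (Module.End ℂ W))
    (hM : ∀ u v, SS b u v ∈ M) : T ∈ M := by
  classical
  let B := Module.finBasis ℂ W
  -- the dual basis
  have hinj : Function.Injective b := by
    rw [← LinearMap.ker_eq_bot, LinearMap.ker_eq_bot']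
    intro x hx
    exact hnd x (fun y => by rw [hx]; rfl)
  have hbij : Function.Bijective b := by
    refine ⟨hinj, ?_⟩
    refine (LinearMap.injective_iff_surjective_of_finrank_eq_finrank ?_).mp hinj
    exact (Subspace.dual_finrank_eq (K := ℂ) (V := W)).symm
  let e := LinearEquiv.ofBijective b hbij
  let D : Fin (finrank ℂ W) → W := fun k => e.symm (B.coord k)
  have hD : ∀ k w, b (D k) w = B.coord k w := by
    intro k w
    have h1 : b (D k) = B.coord k := e.apply_symm_apply (B.coord k)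
    rw [h1]
  have h1 : ∀ w, ∑ k, b (D k) w • B k = w := by
    intro w
    simp only [hD, Basis.coord_apply]
    exact B.sum_repr w
  have h2 : ∀ w, ∑ k, b (B k) w • D k = w := by
    intro w
    rw [← sub_eq_zero]
    apply hnd
    intro y
    rw [map_sub, LinearMap.sub_apply, map_sum, LinearMap.sum_apply]
    have h3 : b w y = ∑ k, b (D k) y * b w (B k) := by
      conv_lhs => rw [← h1 y]
      rw [map_sum]
      exact Finset.sum_congr rfl fun k _ => by rw [map_smul, smul_eq_mul]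
    rw [h3, ← Finset.sum_sub_distrib]
    refine Finset.sum_eq_zero fun k _ => ?_
    rw [map_smul, LinearMap.smul_apply, smul_eq_mul, hsymm (B k) w]
    ring
  have h3 : T = (1 / 2 : ℂ) • ∑ k, SS b (D k) (T (B k)) := by
    ext w
    rw [LinearMap.smul_apply, LinearMap.sum_apply]
    simp only [SS_apply]
    rw [Finset.sum_sub_distrib]
    have h4 : ∑ k, b (D k) w • T (B k) = T w := by
      conv_rhs => rw [← h1 w]
      rw [map_sum]
      exact Finset.sum_congr rfl fun k _ => (map_smul T _ _).symm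
    have h5 : ∑ k, b (T (B k)) w • D k = - T w := by
      conv_rhs => rw [← h2 (T w)]
      rw [← Finset.sum_neg_distrib]
      refine Finset.sum_congr rfl fun k _ => ?_
      rw [hT, neg_smul]
    rw [h4, h5]
    module
  rw [h3]
  exact M.smul_mem _ (M.sum_mem fun k _ => hM _ _)

end S

section

variable {L : Type*} [LieRing L] [LieAlgebra ℂ L] {p : Principal L} {W : Type*} [AddCommGroup W]
  [Module ℂ W] [LieRingModule L W] [LieModule ℂ L W] [FiniteDimensional ℂ W]
  {b : W →ₗ[ℂ] W →ₗ[ℂ] ℂ} (hb : Orth L b) {x : W}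

/-- the image of the Lie algebra -/
def imL (L : Type*) [LieRing L] [LieAlgebra ℂ L] (W : Type*) [AddCommGroup W]
    [Module ℂ W] [LieRingModule L W] [LieModule ℂ L W] : Submodule ℂ (Module.End ℂ W) where
  carrier := {T | ∃ g : L, ∀ w, ⁅g, w⁆ = T w}
  zero_mem' := ⟨0, fun w => by rw [zero_lie]; rfl⟩
  add_mem' := by
    rintro S T ⟨g, hg⟩ ⟨h, hh⟩
    exact ⟨g + h, fun w => by rw [add_lie, hg, hh]; rfl⟩
  smul_mem' := by
    rintro c T ⟨g, hg⟩
    exact ⟨c • g, fun w => by rw [smul_lie, hg]; rfl⟩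

lemma mem_imL (T : Module.End ℂ W) : T ∈ imL L W ↔ ∃ g : L, ∀ w, ⁅g, w⁆ = T w := Iff.rfl

include hb in
lemma SS_lie (g : L) (u v w : W) :
    ⁅g, SS b u v w⁆ - SS b u v ⁅g, w⁆ = SS b ⁅g, u⁆ v w + SS b u ⁅g, v⁆ w := by
  simp only [SS_apply, lie_sub, lie_smul]
  rw [hb.inv g u w, hb.inv g v w]
  module

include hb in
lemma imL_SS (g : L) {u v : W} (h : SS b u v ∈ imL L W) :
    SS b ⁅g, u⁆ v + SS b u ⁅g, v⁆ ∈ imL L W := by
  rw [mem_imL] at h ⊢
  obtain ⟨a, ha⟩ := h
  refine ⟨⁅g, a⁆, fun w => ?_⟩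
  rw [lie_lie, ha, ha, LinearMap.add_apply, ← SS_lie hb]

include hb in
/-- the basis of the module -/
theorem OTop.exists_z [LieModule.IsIrreducible ℂ L W] (T : OTop p b 4 x)
    (hd : finrank ℂ W = 6) : ∃ z : W, z ≠ 0 ∧ b z z ≠ 0 ∧ ⁅p.h, z⁆ = 0 ∧ ⁅p.e, z⁆ = 0 ∧
    ⁅p.f, z⁆ = 0 ∧ (∀ i ≤ 4, b (fp p x i) z = 0) ∧
    (∀ w : W, ∃ (c : ℕ → ℂ) (d : ℂ), w = ∑ i ∈ Finset.range 5, c i • fp p x i + d • z) := by
  have hdim := T.finrank_perp hb
  have h1 : finrank ℂ (perpU b p 4 x) = 1 := by omega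
  obtain ⟨⟨z, hz⟩, hz0, hspan⟩ := finrank_eq_one_iff'.mp h1
  have hz0' : z ≠ 0 := fun h => hz0 (Subtype.ext h)
  have hspan' : ∀ v ∈ perpU b p 4 x, ∃ c : ℂ, v = c • z := by
    intro v hv
    obtain ⟨c, hc⟩ := hspan ⟨v, hv⟩
    exact ⟨c, (congrArg Subtype.val hc).symm⟩
  have hζ : b z z ≠ 0 := by
    obtain ⟨u, hu, hu0⟩ := T.nd_perp hb hz hz0'
    obtain ⟨c, rfl⟩ := hspan' u hu
    intro h0
    apply hu0
    rw [map_smul, h0, smul_zero]
  have key : ∀ g : L, (∀ v ∈ perpU b p 4 x, ⁅g, v⁆ ∈ perpU b p 4 x) → ⁅g, z⁆ = 0 := by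
    intro g hg
    obtain ⟨c, hc⟩ := hspan' _ (hg z hz)
    have h2 := hb.inv g z z
    rw [hc, map_smul, LinearMap.smul_apply, map_smul, smul_eq_mul] at h2
    have h3 : c * b z z = 0 := by linear_combination h2 / 2
    rw [hc, (mul_eq_zero.mp h3).resolve_right hζ, zero_smul]
  refine ⟨z, hz0', hζ, key _ (fun v hv => T.perp_h hb hv), key _ (fun v hv => T.perp_e hb hv),
    key _ (fun v hv => T.perp_f hb hv), hz, fun w => ?_⟩
  obtain ⟨c, hc⟩ := T.decomp hb w
  obtain ⟨d, hd⟩ := hspan' _ hc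
  exact ⟨c, d, by rw [← hd]; abel⟩

end

end Pool.Agent.Helper7
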